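import Pool.Agent.H953Z.St

set_option autoImplicit false

/-! Forward tracking of two nearby half orbits. -/

namespace Pool.Agent.H292Z.Norm

open Pool.Agent.H953Z Finset

theorem lam_pos : 0 < lam := by norm_num [lam]

theorem lam_le : lam ≤ 1 / 1000000000 := le_rfl

theorem lamd_pos (d : ℕ) : 0 < lamd d := div_pos lam_pos (by positivity)

theorem lamd_le (d : ℕ) : lamd d ≤ lam :=
  div_le_self lam_pos.le (one_le_pow₀ (by simp))

theorem beta_eq (d : ℕ) (b : Bool) (s : ℝ) :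
    beta d b s = sg b * (1 / 2 + 1 / 10000 / ((d : ℝ) + 1) + lamd d * s) := by
  simp only [beta, ax, lamd, lam, eps]
  field_simp
  ring

theorem abs_sg (b : Bool) : |sg b| = 1 := by cases b <;> simp [sg]

theorem beta_sub (d : ℕ) (b : Bool) (s t : ℝ) : |beta d b s - beta d b t| = lamd d * |s - t| := by
  rw [beta_eq, beta_eq, ← mul_sub, abs_mul, abs_sg, one_mul,
    show ∀ a : ℝ, a + lamd d * s - (a + lamd d * t) = lamd d * (s - t) from fun a => by ring,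
    abs_mul, abs_of_pos (lamd_pos d)]

theorem beta_in (d : ℕ) {s : ℝ} (hs : |s| ≤ 3) :
    1 / 4 ≤ 1 / 2 + 1 / 10000 / ((d : ℝ) + 1) + lamd d * s ∧
    1 / 2 + 1 / 10000 / ((d : ℝ) + 1) + lamd d * s ≤ 3 / 4 := by
  have h1 : 1 / 10000 / ((d : ℝ) + 1) ≤ 1 / 10000 := div_le_self (by norm_num) (by simp)
  have h2 : 0 ≤ 1 / 10000 / ((d : ℝ) + 1) := by positivity
  have h3 := lamd_pos d
  have h4 := (lamd_le d).trans lam_le
  obtain ⟨h5, h6⟩ := abs_le.1 hs
  constructor <;> nlinarith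

theorem beta_bound (d : ℕ) (b : Bool) {s : ℝ} (hs : |s| ≤ 3) : |beta d b s| ≤ 3 / 4 := by
  rw [beta_eq, abs_mul, abs_sg, one_mul, abs_le]
  constructor <;> linarith [(beta_in d hs).1, (beta_in d hs).2]

theorem sep_aux {d d' : ℕ} (h : d < d') :
    20001 * (lamd d + lamd d') ≤ 1 / 10000 / ((d : ℝ) + 1) - 1 / 10000 / ((d' : ℝ) + 1) := by
  have h1 : (d : ℝ) + 1 + 1 ≤ d' + 1 := by exact_mod_cast Nat.succ_le_succ h
  have h0 : (1 : ℝ) ≤ d + 1 := by simp
  generalize hD : (d : ℝ) + 1 = D at h1 h0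
  have h2 : lamd d' ≤ lamd d := by
    unfold lamd; rw [hD]
    exact div_le_div_of_nonneg_left lam_pos.le (by positivity) (by nlinarith)
  have h3 : 1 / 10000 / ((d' : ℝ) + 1) ≤ 1 / 10000 / (D + 1) :=
    div_le_div_of_nonneg_left (by norm_num) (by positivity) h1
  have h4 : 40002 * lamd d ≤ 1 / 10000 / D - 1 / 10000 / (D + 1) := by
    unfold lamd lam; rw [hD, div_sub_div _ _ (by positivity) (by positivity), ← mul_div_assoc,
      div_le_div_iff₀ (by positivity) (by positivity)]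
    nlinarith [mul_nonneg (show 0 ≤ D by linarith) (show 0 ≤ D - 1 by linarith)]
  linarith

theorem beta_sep {d d' : ℕ} {b b' : Bool} {s t : ℝ} (h : ¬ (d = d' ∧ b = b')) (hs : |s| ≤ 1)
    (ht : |t| ≤ 1) : 20000 * (lamd d + lamd d') ≤ |beta d b s - beta d' b' t| := by
  have a1 := beta_in d (hs.trans (by norm_num))
  have a2 := beta_in d' (ht.trans (by norm_num))
  have h3 := lamd_pos d
  have h4 := lamd_pos d'
  rw [beta_eq, beta_eq]
  by_cases hb : b = b'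
  · subst hb
    rw [← mul_sub, abs_mul, abs_sg, one_mul]
    obtain ⟨h5, h6⟩ := abs_le.1 hs
    obtain ⟨h7, h8⟩ := abs_le.1 ht
    rcases lt_or_gt_of_ne (fun h0 : d = d' => h ⟨h0, rfl⟩) with h1 | h1
    · exact le_trans (by nlinarith [sep_aux h1]) (le_abs_self _)
    · exact le_trans (by nlinarith [sep_aux h1]) (neg_le_abs _)
  · have h5 := (lamd_le d).trans lam_le
    have h6 := (lamd_le d').trans lam_le
    cases b <;> cases b' <;> simp only [sg, not_true, Bool.false_eq_true, if_false, if_true] at hb ⊢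
    · exact le_trans (by linarith [a1.1, a2.1]) (neg_le_abs _)
    · exact le_trans (by linarith [a1.1, a2.1]) (le_abs_self _)

/-- products of contraction rates -/
noncomputable def PP (d : ℕ → ℕ) (i : ℕ) : ℝ := ∏ u ∈ range i, lamd (d (u + 1))

theorem PP_pos (d : ℕ → ℕ) (i : ℕ) : 0 < PP d i := prod_pos fun _ _ => lamd_pos _

theorem PP_succ (d : ℕ → ℕ) (i : ℕ) : PP d (i + 1) = PP d i * lamd (d (i + 1)) :=
  prod_range_succ _ _

theorem PP_add_le (d : ℕ → ℕ) (i k : ℕ) : PP d (i + k) ≤ PP d i * lam ^ k := by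
  induction k with
  | zero => simp
  | succ k ih =>
    rw [← add_assoc, PP_succ, pow_succ, ← mul_assoc]
    exact mul_le_mul ih (lamd_le _) (lamd_pos _).le
      (mul_pos (PP_pos _ _) (pow_pos lam_pos _)).le

theorem PP_anti (d : ℕ → ℕ) {i k : ℕ} (h : i ≤ k) : PP d k ≤ PP d i := by
  obtain ⟨k, rfl⟩ := Nat.exists_eq_add_of_le h
  exact (PP_add_le d i k).trans (mul_le_of_le_one_right (PP_pos _ _).le
    (pow_le_one₀ lam_pos.le (lam_le.trans (by norm_num))))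

theorem geom_inj (S : Finset ℕ) (g : ℕ → ℕ) (hg : Set.InjOn g S) : ∑ i ∈ S, lam ^ g i ≤ 2 := by
  rw [← sum_image (f := fun k => lam ^ k) hg]
  refine le_trans (sum_le_sum fun k _ => pow_le_pow_left₀ lam_pos.le
    (show lam ≤ 1 / 2 from lam_le.trans (by norm_num)) k) ?_
  exact (summable_geometric_two.sum_le_tsum _ fun k _ => by positivity).trans tsum_geometric_two.le

theorem track (e : ℕ) (d : ℕ → ℕ) (u v s t E : ℕ → ℝ) (W : ℝ) (hE : ∀ i, 0 ≤ E i)
    (hv : ∀ i < e, v i = lamd (d (i + 1)) * u (i + 1)) (hs : ∀ i < e, s (i + 1) ≤ t i)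
    (ht : ∀ i, 0 ≤ t i) (v0 : v 0 ≤ W) (t0 : t 0 ≤ W)
    (hp : ∀ i < e, u (i + 1) * PP d (i + 1) ≤ W + ∑ k ∈ range e, E k →
      s (i + 1) * PP d (i + 1) ≤ W + ∑ k ∈ range e, E k →
      |v (i + 1) - u (i + 1)| * PP d (i + 1) ≤ E i ∧ |t (i + 1) - s (i + 1)| * PP d (i + 1) ≤ E i) :
    |v e * PP d e - v 0| ≤ ∑ k ∈ range e, E k := by
  have key : ∀ i ≤ e, |v i * PP d i - v 0| ≤ ∑ k ∈ range i, E k ∧
      t i * PP d i ≤ W + ∑ k ∈ range i, E k := by
    intro i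
    induction i with
    | zero => intro _; simp [PP, t0]
    | succ i ih =>
      intro hi
      obtain ⟨h1, h2⟩ := ih (by omega)
      have h3 : ∑ k ∈ range i, E k ≤ ∑ k ∈ range e, E k :=
        sum_le_sum_of_subset_of_nonneg (range_mono (by omega)) fun k _ _ => hE k
      have h4 : u (i + 1) * PP d (i + 1) = v i * PP d i := by rw [hv i hi, PP_succ]; ring
      have h5 : s (i + 1) * PP d (i + 1) ≤ t i * PP d i :=
        mul_le_mul (hs i hi) (PP_anti d (Nat.le_succ i)) (PP_pos _ _).le (ht i)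
      obtain ⟨h6, h7⟩ := abs_le.1 h1
      obtain ⟨h8, h9⟩ := hp i hi (by linarith) (by linarith)
      rw [← abs_of_pos (PP_pos d (i + 1)), ← abs_mul, abs_le] at h8 h9
      rw [sum_range_succ, abs_le]
      refine ⟨⟨by linarith [h8.1], by linarith [h8.2]⟩, by linarith [h9.2]⟩
  exact (key e le_rfl).1

/-- half orbits -/
structure Half where
  d : ℕ → ℕ
  b : ℕ → Bool
  xi : ℕ → ℝ
  yi : ℕ → ℝ
  xo : ℕ → ℝ
  yo : ℕ → ℝ
  hx : ∀ i, xo i = beta (d (i + 1)) (b i) (xi (i + 1))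
  hy : ∀ i, yi (i + 1) = beta (d i) (b i) (yo i)
  bx : ∀ i, |xi i| ≤ 1

/-- bounded displacement -/
def Mov (xi yi xo yo t : ℝ) : Prop := |xi - xo| ≤ t ∧ |yi - yo| ≤ t

/-- the pass preserves the distances of two orbits -/
def Iso (xi yi xo yo xi' yi' xo' yo' : ℝ) : Prop :=
  |xo - xo'| = |xi - xi'| ∧ |yo - yo'| = |yi - yi'|

theorem Iso.symm {xi yi xo yo xi' yi' xo' yo' : ℝ} (h : Iso xi yi xo yo xi' yi' xo' yo') :
    Iso xi' yi' xo' yo' xi yi xo yo :=
  ⟨by rw [abs_sub_comm, h.1, abs_sub_comm], by rw [abs_sub_comm, h.2, abs_sub_comm]⟩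

theorem Mov.diff {xi yi xo yo xi' yi' xo' yo' t t' : ℝ} (h : Mov xi yi xo yo t)
    (h' : Mov xi' yi' xo' yo' t') :
    abs (|xo - xo'| - |xi - xi'|) ≤ t + t' ∧ abs (|yo - yo'| - |yi - yi'|) ≤ t + t' := by
  obtain ⟨h1, h2⟩ := h
  obtain ⟨h3, h4⟩ := h'
  rw [abs_le] at h1 h2 h3 h4
  constructor <;> refine (abs_abs_sub_abs_le_abs_sub _ _).trans (abs_le.2 ⟨?_, ?_⟩) <;>
    linarith [h1.1, h1.2, h2.1, h2.2, h3.1, h3.2, h4.1, h4.2]

/-- a pass of low level -/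
def HAct (Q : Pat) (j : ℕ) (H H' : Half) (i : ℕ) : Prop :=
  Mov (H.xi i) (H.yi i) (H.xo i) (H.yo i) 0 ∨ ∃ j' < j, H.d i = Q.m j' ∧
    H.d (i + Q.A j') = Q.m j' ∧ ∏ u ∈ range (Q.A j'), lamd (H.d (i + u + 1)) = Q.rho j' ∧
    Mov (H.xi i) (H.yi i) (H.xo i) (H.yo i) (58 * Q.rho j') ∧
    (|H.xi i - H'.xi i| ≤ Q.rho j' → |H.yi i - H'.yi i| ≤ Q.rho j' →
      Iso (H.xi i) (H.yi i) (H.xo i) (H.yo i) (H'.xi i) (H'.yi i) (H'.xo i) (H'.yo i))

/-- the end of an active pass -/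
noncomputable def en (Q : Pat) (d : ℕ → ℕ) (i : ℕ) : ℕ := i + Q.A (Function.invFun Q.m (d i))

open Classical in
/-- weight of an unresolved pass -/
noncomputable def wt (Q : Pat) (d : ℕ → ℕ) (e i : ℕ) : ℝ :=
  if d (en Q d i) = Q.m (Function.invFun Q.m (d i)) ∧ e < en Q d i then lam ^ (en Q d i - e - 1)
  else 0

theorem wt_nonneg (Q : Pat) (d : ℕ → ℕ) (e i : ℕ) : 0 ≤ wt Q d e i := by
  unfold wt; split_ifs; exacts [(pow_pos lam_pos _).le, le_rfl]

theorem wt_sum (Q : Pat) (d : ℕ → ℕ) (e : ℕ) : ∑ i ∈ range e, wt Q d e (i + 1) ≤ 2 := by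
  classical
  unfold wt
  rw [← sum_filter]
  refine geom_inj _ (fun i => en Q d (i + 1) - e - 1) fun i hi k hk h => ?_
  obtain ⟨h1, h2⟩ := (mem_filter.1 hi).2
  obtain ⟨h3, h4⟩ := (mem_filter.1 hk).2
  have h5 : en Q d (i + 1) = en Q d (k + 1) := by dsimp only at h; omega
  rw [h5, h3] at h1
  unfold en at h5
  rw [Q.m_inj h1] at h5
  omega

theorem HAct.cases {Q : Pat} {j : ℕ} {H H' : Half} {i e : ℕ} {W : ℝ} {d : ℕ → ℕ}
    (h : HAct Q j H H' i) (hd : ∀ k ≤ e, H.d k = d k) (hi : i ≤ e)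
    (hW : ∀ k ≤ e, ∀ j' < j, d k = Q.m j' → W ≤ PP d k)
    (h1 : |H.xi i - H'.xi i| * PP d i ≤ W) (h2 : |H.yi i - H'.yi i| * PP d i ≤ W) :
    Iso (H.xi i) (H.yi i) (H.xo i) (H.yo i) (H'.xi i) (H'.yi i) (H'.xo i) (H'.yo i) ∨
      ∃ t, Mov (H.xi i) (H.yi i) (H.xo i) (H.yo i) t ∧
        t * PP d i ≤ 58 * (PP d e * lamd (H.d (e + 1))) * wt Q H.d e i := by
  have hP : ∀ k ≤ e, PP H.d k = PP d k := fun k hk =>
    prod_congr rfl fun u hu => by rw [hd _ (by have := mem_range.1 hu; omega)]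
  rcases h with h | ⟨j', hj, a1, a2, a3, a4, a5⟩
  · refine Or.inr ⟨0, h, ?_⟩
    have := wt_nonneg Q H.d e i
    have := PP_pos d e
    have := lamd_pos (H.d (e + 1))
    rw [zero_mul]; positivity
  have h3 : Q.rho j' * PP d i = PP H.d (i + Q.A j') := by
    rw [← hP i hi, ← a3, PP, PP, prod_range_add, mul_comm]
  by_cases h4 : i + Q.A j' ≤ e
  · have h5 := hW _ h4 j' hj (by rw [← hd _ h4, a2])
    rw [← hP _ h4, ← h3] at h5
    exact Or.inl (a5 (le_of_mul_le_mul_right (h1.trans h5) (PP_pos _ _))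
      (le_of_mul_le_mul_right (h2.trans h5) (PP_pos _ _)))
  · refine Or.inr ⟨_, a4, ?_⟩
    have h5 : Function.invFun Q.m (H.d i) = j' := by
      rw [a1]; exact Function.leftInverse_invFun Q.m_inj j'
    have h6 : en Q H.d i = i + Q.A j' := by rw [en, h5]
    have h7 := PP_add_le H.d (e + 1) (i + Q.A j' - e - 1)
    rw [show e + 1 + (i + Q.A j' - e - 1) = i + Q.A j' by omega] at h7
    rw [wt, h5, h6, if_pos ⟨a2, by omega⟩, mul_assoc, h3, mul_assoc, ← hP e le_rfl, ← PP_succ]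
    exact mul_le_mul_of_nonneg_left h7 (by norm_num)

theorem fwd (Q : Pat) (j : ℕ) (H H' : Half) (h0 : H.d 0 = H'.d 0) (hA : H'.d (Q.A j) = Q.m j)
    (hP : PP H'.d (Q.A j) = Q.rho j) (hx0 : |H.xo 0 - H'.xo 0| ≤ 2940 * Q.rho j)
    (hy0 : |H.yo 0 - H'.yo 0| ≤ 2940 * Q.rho j)
    (hp : ∀ i, H.d i = H'.d i → (Mov (H.xi i) (H.yi i) (H.xo i) (H.yo i) (840 * Q.rho j) ∧
      Mov (H'.xi i) (H'.yi i) (H'.xo i) (H'.yo i) (840 * Q.rho j)) ∨
      (HAct Q j H H' i ∧ HAct Q j H' H i)) :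
    (∀ i ≤ Q.A j, H.d i = H'.d i) ∧ |H.xo 0 - H'.xo 0| ≤ 2 * Q.rho j := by
  classical
  have hex : ∃ e, e = Q.A j ∨ ¬ (H.d (e + 1) = H'.d (e + 1) ∧ H.b e = H'.b e) := ⟨_, Or.inl rfl⟩
  obtain ⟨e, he1, he2, he3⟩ : ∃ e ≤ Q.A j,
      (e = Q.A j ∨ ¬ (H.d (e + 1) = H'.d (e + 1) ∧ H.b e = H'.b e)) ∧
      ∀ i < e, H.d (i + 1) = H'.d (i + 1) ∧ H.b i = H'.b i :=
    ⟨Nat.find hex, Nat.find_min' hex (Or.inl rfl), Nat.find_spec hex, fun i hi =>
      not_not.1 fun h => Nat.find_min hex hi (Or.inr h)⟩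
  have hd : ∀ k ≤ e, H.d k = H'.d k := fun k hk => by
    cases k with
    | zero => exact h0
    | succ k => exact (he3 k hk).1
  have hρ := Q.rho_pos j
  have hl := lam_pos
  have hl' := lam_le
  have hPe := PP_pos H'.d e
  have hL := lamd_pos (H.d (e + 1))
  have hL' := lamd_pos (H'.d (e + 1))
  have hL1 := (lamd_le (H.d (e + 1))).trans lam_le
  have hL1' := (lamd_le (H'.d (e + 1))).trans lam_le
  obtain ⟨a, ha⟩ : ∃ a, a = PP H'.d e * lamd (H.d (e + 1)) := ⟨_, rfl⟩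
  obtain ⟨a', ha'⟩ : ∃ a, a = PP H'.d e * lamd (H'.d (e + 1)) := ⟨_, rfl⟩
  have ha0 : 0 < a := ha ▸ mul_pos hPe hL
  have ha0' : 0 < a' := ha' ▸ mul_pos hPe hL'
  have ha1 : a ≤ PP H'.d e / 1000000000 := by rw [ha]; nlinarith
  have ha1' : a' ≤ PP H'.d e / 1000000000 := by rw [ha']; nlinarith
  let E : ℕ → ℝ := fun i => 1680 * Q.rho j * lam * lam ^ i +
    (58 * a * wt Q H.d e (i + 1) + 58 * a' * wt Q H'.d e (i + 1))
  have hw := wt_nonneg Q H.d e
  have hw' := wt_nonneg Q H'.d e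
  have hE1 : ∀ i, 0 ≤ 1680 * Q.rho j * lam * lam ^ i := fun i => by positivity
  have hE2 : ∀ i, 0 ≤ 58 * a * wt Q H.d e (i + 1) + 58 * a' * wt Q H'.d e (i + 1) := fun i => by
    have := hw (i + 1); have := hw' (i + 1); positivity
  have hS : ∑ k ∈ range e, E k ≤ Q.rho j / 10 + 116 * (a + a') := by
    simp only [E, sum_add_distrib, ← mul_sum]
    have h1 := geom_inj (range e) id (Set.injOn_id _)
    have h2 := wt_sum Q H.d e
    have h3 := wt_sum Q H'.d e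
    have h4 := mul_le_mul_of_nonneg_left h1 (show 0 ≤ 1680 * Q.rho j * lam by positivity)
    have h5 := mul_le_mul_of_nonneg_left h2 (show 0 ≤ 58 * a by positivity)
    have h6 := mul_le_mul_of_nonneg_left h3 (show 0 ≤ 58 * a' by positivity)
    simp only [id] at h4
    nlinarith
  have hlt : e < Q.A j → Q.rho j ≤ a' := fun h => by
    rw [← hP, ha', ← PP_succ]; exact PP_anti _ h
  have hW : ∀ k ≤ e, ∀ j' < j, H'.d k = Q.m j' →
      2940 * Q.rho j + ∑ k ∈ range e, E k ≤ PP H'.d k := by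
    intro k hk j' hj h
    rcases he1.eq_or_lt with h1 | h1
    · have h2 : k ≠ e := fun h2 => by
        rw [h2, h1, hA] at h
        exact hj.ne' (Q.m_inj h)
      have h3 := (PP_anti H'.d (show k + 1 ≤ e by omega)).trans (PP_add_le H'.d k 1)
      have h4 := PP_pos H'.d k
      rw [← h1] at hP
      rw [pow_one] at h3
      nlinarith
    · linarith [PP_anti H'.d hk, hlt h1]
  have key := track e H'.d (fun i => |H.xi i - H'.xi i|) (fun i => |H.xo i - H'.xo i|)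
    (fun i => |H.yi i - H'.yi i|) (fun i => |H.yo i - H'.yo i|) E (2940 * Q.rho j)
    (fun i => add_nonneg (hE1 i) (hE2 i))
    (fun i hi => by rw [H.hx, H'.hx, (he3 i hi).1, (he3 i hi).2, beta_sub])
    (fun i hi => by
      rw [H.hy, H'.hy, hd i hi.le, (he3 i hi).2, beta_sub]
      exact mul_le_of_le_one_left (abs_nonneg _) (((lamd_le _).trans lam_le).trans (by norm_num)))
    (fun i => abs_nonneg _) hx0 hy0 fun i hi h1 h2 => by
      have h3 := PP_pos H'.d (i + 1)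
      have hI : Iso (H.xi (i + 1)) (H.yi (i + 1)) (H.xo (i + 1)) (H.yo (i + 1)) (H'.xi (i + 1))
          (H'.yi (i + 1)) (H'.xo (i + 1)) (H'.yo (i + 1)) →
          abs (|H.xo (i + 1) - H'.xo (i + 1)| - |H.xi (i + 1) - H'.xi (i + 1)|) *
            PP H'.d (i + 1) ≤ E i ∧
          abs (|H.yo (i + 1) - H'.yo (i + 1)| - |H.yi (i + 1) - H'.yi (i + 1)|) *
            PP H'.d (i + 1) ≤ E i := fun h => by
        rw [h.1, h.2, sub_self, sub_self, abs_zero, zero_mul, and_self]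
        exact add_nonneg (hE1 i) (hE2 i)
      have hM : ∀ t t', Mov (H.xi (i + 1)) (H.yi (i + 1)) (H.xo (i + 1)) (H.yo (i + 1)) t →
          Mov (H'.xi (i + 1)) (H'.yi (i + 1)) (H'.xo (i + 1)) (H'.yo (i + 1)) t' →
          (t + t') * PP H'.d (i + 1) ≤ E i →
          abs (|H.xo (i + 1) - H'.xo (i + 1)| - |H.xi (i + 1) - H'.xi (i + 1)|) *
            PP H'.d (i + 1) ≤ E i ∧
          abs (|H.yo (i + 1) - H'.yo (i + 1)| - |H.yi (i + 1) - H'.yi (i + 1)|) *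
            PP H'.d (i + 1) ≤ E i := fun t t' h h' h4 =>
        ⟨(mul_le_mul_of_nonneg_right (h.diff h').1 h3.le).trans h4,
          (mul_le_mul_of_nonneg_right (h.diff h').2 h3.le).trans h4⟩
      rcases hp (i + 1) (he3 i hi).1 with ⟨h4, h5⟩ | ⟨h4, h5⟩
      · refine hM _ _ h4 h5 (le_trans ?_ (le_add_of_nonneg_right (hE2 i)))
        have h6 := PP_add_le H'.d 0 (i + 1)
        rw [zero_add, show PP H'.d 0 = 1 from rfl, one_mul, pow_succ'] at h6
        nlinarith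
      · rcases h4.cases hd hi hW h1 h2 with h6 | ⟨t, h6, h7⟩
        · exact hI h6
        rcases h5.cases (fun _ _ => rfl) hi hW (by rwa [abs_sub_comm]) (by rwa [abs_sub_comm])
          with h8 | ⟨t', h8, h9⟩
        · exact hI h8.symm
        refine hM _ _ h6 h8 (le_trans ?_ (le_add_of_nonneg_left (hE1 i)))
        rw [← ha] at h7
        rw [← ha'] at h9
        linarith
  obtain ⟨k1, k2⟩ := abs_le.1 (key.trans hS)
  have he : e = Q.A j := by
    by_contra h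
    have h1 := beta_sep (he2.resolve_left h) (H.bx (e + 1)) (H'.bx (e + 1))
    rw [← H.hx, ← H'.hx] at h1
    have h2 := mul_le_mul_of_nonneg_right h1 hPe.le
    have h3 := hlt (lt_of_le_of_ne he1 h)
    nlinarith
  refine ⟨fun i hi => hd i (he ▸ hi), ?_⟩
  have h1 : |H.xo e - H'.xo e| ≤ 3 / 2 := by
    rw [H.hx, H'.hx]
    refine (abs_sub _ _).trans ?_
    linarith [beta_bound (H.d (e + 1)) (H.b e) ((H.bx (e + 1)).trans (by norm_num)),
      beta_bound (H'.d (e + 1)) (H'.b e) ((H'.bx (e + 1)).trans (by norm_num))]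
  rw [← he] at hP
  rw [hP] at k1 ha1 ha1'
  nlinarith

end Pool.Agent.H292Z.Norm
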