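import Pool.Agent.H292Z.Norm.Fwd

set_option autoImplicit false

/-! General tools: finite nets, recursion on levels, contracting recursions. -/

namespace Pool.Agent.H292Z.Norm

open Pool.Agent.H953Z Metric

theorem exists_net (S : Set (ℝ × ℝ)) (hS : Bornology.IsBounded S) {δ : ℝ} (hδ : 0 < δ) :
    ∃ F : Finset (ℝ × ℝ), (∀ e ∈ F, e ∈ S) ∧ (∀ e ∈ F, ∀ e' ∈ F, e ≠ e' → δ < ‖e - e'‖) ∧
      ∀ p ∈ S, ∃ e ∈ F, ‖p - e‖ ≤ δ := by
  obtain ⟨ε, rfl⟩ : ∃ ε : NNReal, δ = ((2 * ε : NNReal) : ℝ) :=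
    ⟨(δ / 2).toNNReal, by
      rw [NNReal.coe_mul, Real.coe_toNNReal _ (by positivity), NNReal.coe_ofNat]; ring⟩
  have hε : ε ≠ 0 := fun h => by simp [h] at hδ
  obtain ⟨N, -, h1, h2⟩ := exists_finite_isCover_of_isCompact_closure hε hS.isCompact_closure
  have h3 : packingNumber (2 * ε) S ≠ ⊤ := ne_top_of_le_ne_top h1.encard_lt_top.ne
    ((packingNumber_two_mul_le_externalCoveringNumber ε S).trans
      h2.externalCoveringNumber_le_encard)
  have h4 : (maximalSeparatedSet (2 * ε) S).Finite :=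
    Set.encard_ne_top_iff.1 (by rwa [encard_maximalSeparatedSet h3])
  refine ⟨h4.toFinset, fun e he => maximalSeparatedSet_subset (h4.mem_toFinset.1 he),
    fun e he e' he' h => ?_, fun p hp => ?_⟩
  · have := isSeparated_maximalSeparatedSet (h4.mem_toFinset.1 he) (h4.mem_toFinset.1 he') h
    beta_reduce at this
    rwa [edist_nndist, ENNReal.coe_lt_coe, ← NNReal.coe_lt_coe, coe_nndist, dist_eq_norm] at this
  · obtain ⟨e, he, h⟩ := Set.mem_iUnion₂.1 ((isCover_maximalSeparatedSet h3).subset_iUnion_closedBall hp)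
    exact ⟨e, h4.mem_toFinset.2 he, by rwa [mem_closedBall, dist_eq_norm] at h⟩

theorem exists_rec {α : Type} [Inhabited α] (Φ : ℕ → (ℕ → α) → α → Prop)
    (h1 : ∀ j C, ∃ x, Φ j C x)
    (h2 : ∀ j C C' x, (∀ i < j, C i = C' i) → Φ j C x → Φ j C' x) :
    ∃ C : ℕ → α, ∀ j, Φ j C (C j) := by
  choose f hf using h1
  let C : ℕ → α := fun j => Nat.strongRec (motive := fun _ => α)
    (fun j c => f j fun i => if h : i < j then c i h else default) j
  refine ⟨C, fun j => h2 j (fun i => if i < j then C i else default) C _ (fun i hi => if_pos hi) ?_⟩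
  have : C j = f j fun i => if i < j then C i else default := Nat.strongRec_eq _ _
  rw [this]
  exact hf _ _

theorem contr {a : ℤ → ℝ} {D B : ℝ} (hD : 0 ≤ D) (hB : ∀ n, a n ≤ B)
    (h : ∀ n, ∃ k, a n ≤ lam * (a k + D)) (n : ℤ) : a n ≤ 2 * lam * D := by
  have hb : BddAbove (Set.range a) := ⟨B, Set.forall_mem_range.2 hB⟩
  have h1 : ⨆ n, a n ≤ lam * ((⨆ n, a n) + D) := ciSup_le fun n => by
    obtain ⟨k, hk⟩ := h n
    exact hk.trans (mul_le_mul_of_nonneg_left (by linarith [le_ciSup hb k]) lam_pos.le)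
  have h2 := le_ciSup hb n
  unfold lam at *
  linarith

theorem solve (G : ℤ → ℝ → ℝ) (σ : ℤ → ℤ) (x0 : ℤ → ℝ) {D : ℝ} (hD : 0 ≤ D)
    (h1 : ∀ n s t, |G n s - G n t| ≤ lam * |s - t|)
    (h2 : ∀ n, |G n (x0 (σ n)) - x0 n| ≤ lam * D) :
    ∃ x : ℤ → ℝ, (∀ n, x n = G n (x (σ n))) ∧ ∀ n, |x n - x0 n| ≤ 2 * lam * D := by
  have h3 : ∀ n s, |G n (x0 (σ n) + s) - x0 n| ≤ lam * (|s| + D) := fun n s => by
    have h4 := h1 n (x0 (σ n) + s) (x0 (σ n))
    rw [add_sub_cancel_left] at h4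
    linarith [abs_sub_le (G n (x0 (σ n) + s)) (G n (x0 (σ n))) (x0 n), h2 n]
  let Φ : BoundedContinuousFunction ℤ ℝ → BoundedContinuousFunction ℤ ℝ := fun u =>
    .ofNormedAddCommGroupDiscrete (fun n => G n (x0 (σ n) + u (σ n)) - x0 n) (lam * (‖u‖ + D))
      fun n => (h3 n _).trans
        (mul_le_mul_of_nonneg_left (add_le_add_left (u.norm_coe_le_norm _) _) lam_pos.le)
  have hΦ : ContractingWith ⟨lam, lam_pos.le⟩ Φ := by
    refine ⟨lam_le.trans_lt (by norm_num : (1 : ℝ) / 1000000000 < 1),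
      LipschitzWith.of_dist_le_mul fun u v => ?_⟩
    refine (BoundedContinuousFunction.dist_le (mul_nonneg lam_pos.le dist_nonneg)).2 fun n => ?_
    change |G n (x0 (σ n) + u (σ n)) - x0 n - (G n (x0 (σ n) + v (σ n)) - x0 n)| ≤ lam * _
    rw [sub_sub_sub_cancel_right]
    refine (h1 _ _ _).trans (mul_le_mul_of_nonneg_left ?_ lam_pos.le)
    rw [add_sub_add_left_eq_sub]
    exact BoundedContinuousFunction.dist_coe_le_dist (f := u) (g := v) (σ n)
  obtain ⟨u, hu⟩ : ∃ u, Φ u = u := ⟨_, hΦ.fixedPoint_isFixedPt⟩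
  have h5 : ∀ n, u n = G n (x0 (σ n) + u (σ n)) - x0 n := fun n => by
    conv_lhs => rw [← hu]
    rfl
  refine ⟨fun n => x0 n + u n, fun n => by linarith [h5 n], fun n => ?_⟩
  rw [add_sub_cancel_left]
  exact contr (a := fun n => |u n|) hD (fun n => u.norm_coe_le_norm n)
    (fun n => ⟨σ n, by rw [h5 n]; exact h3 n _⟩) n

end Pool.Agent.H292Z.Norm
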