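import Pool.Agent.H292Z.Norm.Gen

set_option autoImplicit false

/-! Pseudo orbits, the nets of centres and the key rigidity statement. -/

namespace Pool.Agent.H292Z.Norm

open Pool.Agent.H953Z Finset

theorem abs_off (c : Fin 3) : |off c| ≤ 18 := by
  fin_cases c <;> norm_num [off]

theorem abs_fl (c : Fin 3) (x : ℝ) : |fl c * x| = |x| := by
  unfold fl; split_ifs <;> simp

theorem off_inj {c c' : Fin 3} {r x : ℝ} (hr : 0 < r) (h : |x - off c * r| ≤ r)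
    (h' : |x - off c' * r| ≤ r) : c = c' := by
  rw [abs_le] at h h'
  fin_cases c <;> fin_cases c' <;> first | rfl | (norm_num [off] at h h'; linarith [h.1, h'.1])

theorem abs_offr (c : Fin 3) {r : ℝ} (hr : 0 < r) : |off c * r| ≤ 18 * r := by
  rw [abs_mul, abs_of_pos hr]; exact mul_le_mul_of_nonneg_right (abs_off c) hr.le

section
variable {e e' : ℝ × ℝ} {r x y xi yi xo yo : ℝ} {c : Fin 3} {C : Finset (ℝ × ℝ)}

theorem InV.near (hr : 0 < r) (h : InV e r c x y) : Near e r x y := by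
  obtain ⟨h1, h2⟩ := h
  have h3 := abs_offr c hr
  rw [abs_le] at h1 h3
  exact ⟨abs_le.2 ⟨by linarith [h1.1, h3.1], by linarith [h1.2, h3.2]⟩, by linarith⟩

theorem InH.near (hr : 0 < r) (h : InH e r c x y) : Near e r x y := by
  obtain ⟨h1, h2⟩ := h
  have h3 := abs_offr c hr
  rw [abs_le] at h2 h3
  exact ⟨by linarith, abs_le.2 ⟨by linarith [h2.1, h3.1], by linarith [h2.2, h3.2]⟩⟩

/-- the separation of the centres -/
def Sep (C : Finset (ℝ × ℝ)) (r : ℝ) : Prop := ∀ e ∈ C, ∀ e' ∈ C, e ≠ e' → 420 * r < ‖e - e'‖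

theorem Sep.eq (h : Sep C r) (he : e ∈ C) (he' : e' ∈ C) {s t : ℝ} (h1 : |x - e.1| ≤ s)
    (h2 : |y - e.2| ≤ s) {x' y' u : ℝ} (h3 : |x' - e'.1| ≤ t) (h4 : |y' - e'.2| ≤ t)
    (h5 : |x - x'| ≤ u) (h6 : |y - y'| ≤ u) (h7 : s + t + u ≤ 420 * r) : e = e' := by
  by_contra h0
  refine (h e he e' he' h0).not_ge (max_le ?_ ?_)
  · rw [abs_le] at h1 h3 h5
    exact abs_le.2 ⟨by simp only [Prod.fst_sub]; linarith [h1.2, h3.1, h5.1],
      by simp only [Prod.fst_sub]; linarith [h1.1, h3.2, h5.2]⟩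
  · rw [abs_le] at h2 h4 h6
    exact abs_le.2 ⟨by simp only [Prod.snd_sub]; linarith [h2.2, h4.1, h6.1],
      by simp only [Prod.snd_sub]; linarith [h2.1, h4.2, h6.2]⟩

theorem Sep.near (h : Sep C r) (hr : 0 < r) (he : e ∈ C) (he' : e' ∈ C) (h1 : Near e r x y)
    (h2 : Near e' r x y) : e = e' :=
  h.eq he he' h1.1 h1.2 h2.1 h2.2 (u := 0) (by simp) (by simp) (by linarith)

theorem Rel.form (h : Rel C r xi yi xo yo) (hs : Sep C r) (hr : 0 < r) (he : e ∈ C)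
    (hc : InV e r c xi yi ∨ InH e r c xo yo) : Form e r c xi yi xo yo := by
  rcases h with ⟨h1, rfl, rfl⟩ | ⟨e', he', h1, h2, -, h3, h4⟩
  · exact (h1 e he (hc.elim (InV.near hr) (InH.near hr))).elim
  · rcases hc with hc | hc
    · obtain rfl := hs.near hr he he' (InV.near hr hc) h1
      exact h3 c hc
    · obtain rfl := hs.near hr he he' (InH.near hr hc) h2
      exact h4 c hc

theorem Rel.mov (h : Rel C r xi yi xo yo) (hr : 0 < r) : Mov xi yi xo yo (280 * r) := by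
  rcases h with ⟨-, rfl, rfl⟩ | ⟨e, -, ⟨h1, h2⟩, ⟨h3, h4⟩, -⟩
  · constructor <;> simp [hr.le]
  · rw [abs_le] at h1 h2 h3 h4
    constructor <;> rw [abs_le] <;> constructor <;>
      linarith [h1.1, h1.2, h2.1, h2.2, h3.1, h3.2, h4.1, h4.2]

theorem Form.dx (h : Form e r c xi yi xo yo) : |xi - e.1 - off c * r| = |xo - e.1| := by
  rw [← abs_fl c (xo - e.1), h.1]; congr 1; ring

theorem Form.dy (h : Form e r c xi yi xo yo) : |yo - e.2 - off c * r| = |yi - e.2| := by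
  rw [← abs_fl c (yi - e.2), h.2]; congr 1; ring

theorem Form.mov (h : Form e r c xi yi xo yo) (hr : 0 < r) {s : ℝ} (h1 : |xo - e.1| ≤ s)
    (h2 : |yi - e.2| ≤ s) : Mov xi yi xo yo (2 * s + 18 * r) := by
  have h3 := (Form.dx h).trans_le h1
  have h4 := (Form.dy h).trans_le h2
  have h5 := abs_offr c hr
  rw [abs_le] at h1 h2 h3 h4 h5
  constructor <;> rw [abs_le] <;> constructor <;>
    linarith [h1.1, h1.2, h2.1, h2.2, h3.1, h3.2, h4.1, h4.2, h5.1, h5.2]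

theorem Form.iso (h : Form e r c xi yi xo yo) {xi' yi' xo' yo' : ℝ}
    (h' : Form e r c xi' yi' xo' yo') : Iso xi yi xo yo xi' yi' xo' yo' := by
  constructor
  · rw [← abs_fl c (xo - xo'), h.1, h'.1]; congr 1; ring
  · rw [← abs_fl c (yi - yi'), h.2, h'.2]; congr 1; ring

theorem Form.rel (h : Form e r c xi yi xo yo) (hr : 0 < r) (he : e ∈ C) (hv : InV e r c xi yi) :
    Rel C r xi yi xo yo := by
  have hh : InH e r c xo yo := ⟨Form.dx h ▸ hv.1, (Form.dy h).symm ▸ hv.2⟩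
  refine Or.inr ⟨e, he, InV.near hr hv, InH.near hr hh, fun _ _ => ⟨c, h⟩, fun c' hc => ?_,
    fun c' hc => ?_⟩
  · rwa [off_inj hr hc.1 hv.1]
  · rwa [off_inj hr hc.2 hh.2]

theorem Mov.mono {s t : ℝ} (h : Mov xi yi xo yo s) (hs : s ≤ t) : Mov xi yi xo yo t :=
  ⟨h.1.trans hs, h.2.trans hs⟩

theorem Mov.of_eq {t : ℝ} (h : xo = xi ∧ yo = yi) (ht : 0 ≤ t) : Mov xi yi xo yo t := by
  rw [h.1, h.2]; constructor <;> simp [ht]

end

/-- the relation at pass `n` and level `j` -/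
def RelO (Q : Pat) (C : ℕ → Finset (ℝ × ℝ)) (j : ℕ) (O : Orb) (n : ℤ) : Prop :=
  Rel (C j) (3 * Q.rho j) (O.xi n) (O.yi n) (O.xo n) (O.yo n)

def MovO (O : Orb) (n : ℤ) (t : ℝ) : Prop := Mov (O.xi n) (O.yi n) (O.xo n) (O.yo n) t

def IsoO (O O' : Orb) (n n' : ℤ) : Prop :=
  Iso (O.xi n) (O.yi n) (O.xo n) (O.yo n) (O'.xi n') (O'.yi n') (O'.xo n') (O'.yo n')

def FormO (Q : Pat) (j : ℕ) (e : ℝ × ℝ) (c : Fin 3) (O : Orb) (n : ℤ) : Prop :=
  Form e (3 * Q.rho j) c (O.xi n) (O.yi n) (O.xo n) (O.yo n)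

/-- the orbit is within `t` of the centre `e` -/
def Cl (e : ℝ × ℝ) (t : ℝ) (O : Orb) (n : ℤ) : Prop := |O.xo n - e.1| ≤ t ∧ |O.yi n - e.2| ≤ t

/-- exact below level `j`, bounded displacement elsewhere -/
def Pseudo (Q : Pat) (C : ℕ → Finset (ℝ × ℝ)) (j : ℕ) (O : Orb) : Prop :=
  ∀ n, (∀ i < j, O.d n = Q.m i → RelO Q C i O n) ∧
    ((∀ i < j, O.d n ≠ Q.m i) → MovO O n (840 * Q.rho j))

def Ref (Q : Pat) (C : ℕ → Finset (ℝ × ℝ)) (j : ℕ) : Set (ℝ × ℝ) :=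
  {p | ∃ O n, Pseudo Q C j O ∧ Q.Mt j O.d n ∧ p = (O.xo n, O.yi n)}

structure Net (Q : Pat) (C : ℕ → Finset (ℝ × ℝ)) : Prop where
  sub : ∀ j, ∀ e ∈ C j, e ∈ Ref Q C j
  sep : ∀ j, Sep (C j) (3 * Q.rho j)
  cov : ∀ j, ∀ p ∈ Ref Q C j, ∃ e ∈ C j, ‖p - e‖ ≤ 420 * (3 * Q.rho j)

theorem xo_le (O : Orb) (n : ℤ) : |O.xo n| ≤ 3 / 4 := by
  have := O.hx (n + 1)
  rw [add_sub_cancel_right] at this
  exact this ▸ beta_bound _ _ ((O.bx _).trans (by norm_num))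

theorem yi_le (O : Orb) (n : ℤ) : |O.yi n| ≤ 3 / 4 := by
  have := O.hy (n - 1)
  rw [sub_add_cancel] at this
  exact this ▸ beta_bound _ _ ((O.bz _).trans (by norm_num))

theorem r_pos (Q : Pat) (j : ℕ) : 0 < 3 * Q.rho j := mul_pos three_pos (Q.rho_pos j)

theorem exists_Net (Q : Pat) : ∃ C, Net Q C := by
  obtain ⟨C, h⟩ := exists_rec (fun j C F => (∀ e ∈ F, e ∈ Ref Q C j) ∧ Sep F (3 * Q.rho j) ∧
      ∀ p ∈ Ref Q C j, ∃ e ∈ F, ‖p - e‖ ≤ 420 * (3 * Q.rho j))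
    (fun j C => exists_net _ (isBounded_iff_forall_norm_le.2 ⟨3 / 4, by
      rintro _ ⟨O, n, -, -, rfl⟩
      exact max_le (xo_le O n) (yi_le O n)⟩) (mul_pos (by norm_num) (r_pos Q j)))
    fun j C C' F h hF => by
      have : Ref Q C j = Ref Q C' j := by
        unfold Ref Pseudo RelO
        refine Set.ext fun p => exists₂_congr fun O n => and_congr_left' <| forall_congr' fun k =>
          and_congr_left' <| forall₂_congr fun i hi => by rw [h i hi]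
      rwa [this] at hF
  exact ⟨C, fun j => (h j).1, fun j => (h j).2.1, fun j => (h j).2.2⟩

variable {Q : Pat} {C : ℕ → Finset (ℝ × ℝ)}

theorem RelO.mov {j : ℕ} {O : Orb} {n : ℤ} (h : RelO Q C j O n) : MovO O n (840 * Q.rho j) :=
  (Rel.mov h (r_pos Q j)).mono (by linarith)

theorem Pseudo.mono {i j : ℕ} {O : Orb} (h : Pseudo Q C j O) (hi : i ≤ j) : Pseudo Q C i O := by
  refine fun n => ⟨fun k hk => (h n).1 k (hk.trans_le hi), fun h1 => ?_⟩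
  by_cases h2 : ∃ k < j, O.d n = Q.m k
  · obtain ⟨k, hk, h2⟩ := h2
    exact ((h n).1 k hk h2).mov.mono
      (by linarith [Q.rho_anti (not_lt.1 fun h3 => h1 k h3 h2 : i ≤ k)])
  · exact ((h n).2 fun k hk h3 => h2 ⟨k, hk, h3⟩).mono (by linarith [Q.rho_anti hi])

theorem Exact.pseudo {O : Orb} (h : Exact Q.m C (fun j => 3 * Q.rho j) O) (j : ℕ) :
    Pseudo Q C j O := by
  refine fun n => ⟨fun k _ => (h n).1 k, fun h1 => ?_⟩
  by_cases h2 : ∃ k, O.d n = Q.m k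
  · obtain ⟨k, h2⟩ := h2
    exact (RelO.mov ((h n).1 k h2)).mono
      (by linarith [Q.rho_anti (not_lt.1 fun h3 => h1 k h3 h2 : j ≤ k)])
  · exact Mov.of_eq ((h n).2 fun k h3 => h2 ⟨k, h3⟩) (by linarith [Q.rho_pos j])

/-- rigidity at level `j` -/
def KK (Q : Pat) (C : ℕ → Finset (ℝ × ℝ)) (j : ℕ) : Prop :=
  ∀ O, Pseudo Q C j O → ∀ n, O.d n = Q.m j → ∀ e ∈ Ref Q C j, Cl e (1260 * Q.rho j) O n →
    Q.Mt j O.d n ∧ Cl e (2 * Q.rho j) O n

theorem KK.cen (hN : Net Q C) {j : ℕ} (h : KK Q C j) {O : Orb} (hO : Pseudo Q C j O) {n : ℤ}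
    (hn : Q.Mt j O.d n) : ∃ e ∈ C j, Cl e (2 * Q.rho j) O n := by
  obtain ⟨e, he, h1⟩ := hN.cov j _ ⟨O, n, hO, hn, rfl⟩
  exact ⟨e, he, (h O hO n (Q.at_mid _ _ _ hn) e (hN.sub j e he)
    ⟨(norm_fst_le _).trans (h1.trans (by linarith)),
      (norm_snd_le _).trans (h1.trans (by linarith))⟩).2⟩

theorem KK.dich (hN : Net Q C) {j : ℕ} (h : KK Q C j) {O : Orb} (hO : Pseudo Q C (j + 1) O) {n : ℤ}
    (hn : O.d n = Q.m j) :
    (¬ Q.Mt j O.d n ∧ (∀ e ∈ C j, ¬ Near e (3 * Q.rho j) (O.xi n) (O.yi n)) ∧ O.xo n = O.xi n ∧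
      O.yo n = O.yi n) ∨
    (Q.Mt j O.d n ∧ ∃ e ∈ C j, Cl e (2 * Q.rho j) O n ∧ ∃ c, FormO Q j e c O n) := by
  have hρ := Q.rho_pos j
  rcases (hO n).1 j j.lt_succ_self hn with h1 | ⟨e, he, h1, h2, h3, -⟩
  · refine Or.inl ⟨fun h2 => ?_, h1⟩
    obtain ⟨e, he, h3, h4⟩ := h.cen hN (hO.mono j.le_succ) h2
    exact h1.1 e he ⟨by rw [← h1.2.1]; linarith, by linarith⟩
  · obtain ⟨h4, h5⟩ := h O (hO.mono j.le_succ) n hn e (hN.sub j e he)
      ⟨by linarith [h2.1], by linarith [h1.2]⟩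
    exact Or.inr ⟨h4, e, he, h5, h3 (by linarith [h5.2]) (by linarith [h5.1])⟩

/-- a pass of low level, for full orbits -/
def OAct (Q : Pat) (j : ℕ) (O O' : Orb) (n n' : ℤ) : Prop :=
  MovO O n 0 ∨ ∃ i < j, Q.Mt i O.d n ∧ MovO O n (58 * Q.rho i) ∧
    ((|O.xi n - O'.xi n'| ≤ Q.rho i ∧ |O.yi n - O'.yi n'| ≤ Q.rho i) ∨
      (|O.xo n - O'.xo n'| ≤ Q.rho i ∧ |O.yo n - O'.yo n'| ≤ Q.rho i) → IsoO O O' n n')

theorem oact (hN : Net Q C) {i j : ℕ} (hi : i < j) (h : KK Q C i) {O O' : Orb} (hO : Pseudo Q C j O)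
    (hO' : Pseudo Q C j O') {n n' : ℤ} (hn : O.d n = Q.m i) (hn' : O'.d n' = Q.m i) :
    OAct Q j O O' n n' := by
  rcases h.dich hN (hO.mono hi) hn with h1 | ⟨h1, e, he, ⟨h2, h3⟩, c, h4⟩
  · exact Or.inl (Mov.of_eq h1.2.2 le_rfl)
  refine Or.inr ⟨i, hi, h1, (Form.mov h4 (r_pos Q i) h2 h3).mono (by linarith), fun h5 =>
    Form.iso h4 (Rel.form ((hO' n').1 i hi hn') (hN.sep i) (r_pos Q i) he ?_)⟩
  have h6 := (Form.dx h4).trans_le h2
  have h7 := (Form.dy h4).trans_le h3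
  rw [abs_le] at h2 h3 h6 h7
  refine h5.imp (fun h5 => ?_) fun h5 => ?_ <;> obtain ⟨h8, h9⟩ := h5 <;> rw [abs_le] at h8 h9 <;>
    constructor <;> rw [abs_le] <;> constructor <;>
    linarith [h2.1, h2.2, h3.1, h3.2, h6.1, h6.2, h7.1, h7.2, h8.1, h8.2, h9.1, h9.2]

/-- the forward half of an orbit -/
def fw (O : Orb) (n : ℤ) : Half where
  d i := O.d (n + i)
  b i := O.b (n + i + 1)
  xi i := O.xi (n + i)
  yi i := O.yi (n + i)
  xo i := O.xo (n + i)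
  yo i := O.yo (n + i)
  hx i := by
    have := O.hx (n + i + 1)
    rw [add_sub_cancel_right] at this
    rw [this, Nat.cast_succ, add_assoc]
  hy i := by rw [← O.hy, Nat.cast_succ, add_assoc]
  bx i := O.bx _

/-- the backward half of an orbit -/
def bw (O : Orb) (n : ℤ) : Half where
  d i := O.d (n - i)
  b i := O.b (n - i)
  xi i := O.yo (n - i)
  yi i := O.xo (n - i)
  xo i := O.yi (n - i)
  yo i := O.xi (n - i)
  hx i := by
    have := O.hy (n - i - 1)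
    rw [sub_add_cancel] at this
    rw [this, Nat.cast_succ, sub_sub]
  hy i := by rw [← O.hx, Nat.cast_succ, sub_sub]
  bx i := O.bz _

theorem OAct.fw {j : ℕ} {O O' : Orb} {n n' : ℤ} {i : ℕ} (h : OAct Q j O O' (n + i) (n' + i)) :
    HAct Q j (fw O n) (fw O' n') i := by
  refine h.imp id fun ⟨k, hk, h1, h2, h3⟩ => ⟨k, hk, Q.at_mid _ _ _ h1, ?_, ?_, h2,
    fun h4 h5 => h3 (Or.inl ⟨h4, h5⟩)⟩
  · rw [← Q.at_fut _ _ _ h1]; simp [Norm.fw, add_assoc]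
  · rw [← Q.fut _ _ _ h1]; simp [Norm.fw, add_assoc]

theorem MovO.bw {O : Orb} {n : ℤ} {t : ℝ} (h : MovO O n t) :
    Mov (O.yo n) (O.xo n) (O.yi n) (O.xi n) t :=
  ⟨by rw [abs_sub_comm]; exact h.2, by rw [abs_sub_comm]; exact h.1⟩

theorem OAct.bw {j : ℕ} {O O' : Orb} {n n' : ℤ} {i : ℕ} (h : OAct Q j O O' (n - i) (n' - i)) :
    HAct Q j (bw O n) (bw O' n') i := by
  refine h.imp MovO.bw fun ⟨k, hk, h1, h2, h3⟩ => ⟨k, hk, Q.at_mid _ _ _ h1, ?_, ?_, h2.bw,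
    fun h4 h5 => ⟨(h3 (Or.inr ⟨h5, h4⟩)).2.symm, (h3 (Or.inr ⟨h5, h4⟩)).1.symm⟩⟩
  · rw [← Q.at_past _ _ _ h1]; simp [Norm.bw, sub_sub]
  · rw [← Q.past _ _ _ h1]; simp [Norm.bw, sub_sub, add_assoc]

theorem key (hN : Net Q C) (j : ℕ) : KK Q C j := by
  induction j using Nat.strong_induction_on with
  | _ j ih =>
  rintro O hO n hn _ ⟨O', n', hO', hn', rfl⟩ ⟨h1, h2⟩
  have hρ := Q.rho_pos j
  have hm := Q.at_mid _ _ _ hn'
  have hp : ∀ p p', O.d p = O'.d p' → (MovO O p (840 * Q.rho j) ∧ MovO O' p' (840 * Q.rho j)) ∨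
      (OAct Q j O O' p p' ∧ OAct Q j O' O p' p) := fun p p' h => by
    by_cases h3 : ∃ i < j, O.d p = Q.m i
    · obtain ⟨i, hi, h3⟩ := h3
      exact Or.inr ⟨oact hN hi (ih i hi) hO hO' h3 (h ▸ h3), oact hN hi (ih i hi) hO' hO (h ▸ h3) h3⟩
    · exact Or.inl ⟨(hO p).2 fun i hi h4 => h3 ⟨i, hi, h4⟩,
        (hO' p').2 fun i hi h4 => h3 ⟨i, hi, h.trans h4⟩⟩
  have h3 := ((hO n).2 fun i hi h => hi.ne' (Q.m_inj (hn.symm.trans h))).diff
    ((hO' n').2 fun i hi h => hi.ne' (Q.m_inj (hm.symm.trans h)))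
  rw [abs_le, abs_le] at h3
  dsimp only at h1 h2
  have F := fwd Q j (fw O n) (fw O' n') (by simp [fw, hn, hm]) (Q.at_fut _ _ _ hn')
    (by rw [← Q.fut _ _ _ hn']; simp [fw, PP, add_assoc])
    (by simp only [fw, Nat.cast_zero, add_zero]; linarith)
    (by simp only [fw, Nat.cast_zero, add_zero]; linarith [h3.2.2])
    fun i h => (hp _ _ h).imp id fun h => ⟨h.1.fw, h.2.fw⟩
  have B := fwd Q j (bw O n) (bw O' n') (by simp [bw, hn, hm]) (Q.at_past _ _ _ hn')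
    (by rw [← Q.past _ _ _ hn']; simp [bw, PP, sub_sub])
    (by simp only [bw, Nat.cast_zero, sub_zero]; linarith)
    (by simp only [bw, Nat.cast_zero, sub_zero]; linarith [h3.1.1])
    fun i h => (hp _ _ h).imp (fun h => ⟨h.1.bw, h.2.bw⟩) fun h => ⟨h.1.bw, h.2.bw⟩
  simp only [fw, bw, Nat.cast_zero, add_zero, sub_zero] at F B
  refine ⟨Q.loc j _ _ n n' hn' fun i hi => ?_, F.2, B.2⟩
  rw [abs_le] at hi
  obtain ⟨k, rfl | rfl⟩ := i.eq_nat_or_neg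
  · exact F.1 k (by omega)
  · exact B.1 k (by omega)

end Pool.Agent.H292Z.Norm
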