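import Pool.Agent.H292Z.Norm.Key

set_option autoImplicit false

/-! Existence and uniqueness of exact orbits; the normalised geometry. -/

namespace Pool.Agent.H292Z.Norm

open Pool.Agent.H953Z Finset

variable {Q : Pat} {C : ℕ → Finset (ℝ × ℝ)}

theorem hx' (O : Orb) (n : ℤ) : O.xo n = beta (O.d (n + 1)) (O.b (n + 1)) (O.xi (n + 1)) := by
  rw [← O.hx, add_sub_cancel_right]

theorem hy' (O : Orb) (n : ℤ) : O.yi n = beta (O.d (n - 1)) (O.b n) (O.yo (n - 1)) := by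
  have := O.hy (n - 1)
  rwa [sub_add_cancel] at this

theorem beta_lip (d : ℕ) (b : Bool) {s t u : ℝ} (h : |s - t| ≤ u) :
    |beta d b s - beta d b t| ≤ lam * u :=
  (beta_sub d b s t).trans_le (mul_le_mul (lamd_le d) h (abs_nonneg _) lam_pos.le)

theorem close {O O' : Orb} (hd : O.d = O'.d) (hb : O.b = O'.b) {D : ℝ} (hD : 0 ≤ D)
    (h : ∀ n, |O.xi n - O'.xi n| ≤ |O.xo n - O'.xo n| + D ∧
      |O.yo n - O'.yo n| ≤ |O.yi n - O'.yi n| + D) (n : ℤ) :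
    |O.xo n - O'.xo n| ≤ 2 * lam * D ∧ |O.yi n - O'.yi n| ≤ 2 * lam * D :=
  ⟨contr (a := fun n => |O.xo n - O'.xo n|) hD
    (fun n => (abs_sub _ _).trans (add_le_add (xo_le O n) (xo_le O' n)))
    (fun n => ⟨n + 1, by rw [hx' O n, hx' O' n, hd, hb]; exact beta_lip _ _ (h _).1⟩) n,
  contr (a := fun n => |O.yi n - O'.yi n|) hD
    (fun n => (abs_sub _ _).trans (add_le_add (yi_le O n) (yi_le O' n)))
    (fun n => ⟨n - 1, by rw [hy' O n, hy' O' n, hd, hb]; exact beta_lip _ _ (h _).2⟩) n⟩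

theorem close_lev {j : ℕ} {O O' : Orb} (hO : Pseudo Q C j O) (hO' : Pseudo Q C j O')
    (hd : O.d = O'.d) (hb : O.b = O'.b) (h : ∀ n, ∀ i < j, O.d n = Q.m i → IsoO O O' n n) (n : ℤ) :
    |O.xo n - O'.xo n| ≤ Q.rho j ∧ |O.yi n - O'.yi n| ≤ Q.rho j := by
  have hρ := Q.rho_pos j
  have := close hd hb (D := 1680 * Q.rho j) (by linarith) (fun k => by
    by_cases h1 : ∃ i < j, O.d k = Q.m i
    · obtain ⟨i, hi, h1⟩ := h1
      obtain ⟨h2, h3⟩ := h k i hi h1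
      constructor <;> linarith
    · obtain ⟨h2, h3⟩ := ((hO k).2 fun i hi h => h1 ⟨i, hi, h⟩).diff
        ((hO' k).2 fun i hi h => h1 ⟨i, hi, hd ▸ h⟩)
      rw [abs_le] at h2 h3
      constructor <;> linarith [h2.1, h3.2]) n
  unfold lam at this
  constructor <;> linarith [this.1, this.2]

theorem FormO.inV {j : ℕ} {e : ℝ × ℝ} {c : Fin 3} {O : Orb} {n : ℤ} (h : FormO Q j e c O n)
    (h1 : Cl e (3 * Q.rho j) O n) : InV e (3 * Q.rho j) c (O.xi n) (O.yi n) :=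
  ⟨(Form.dx h).trans_le h1.1, h1.2⟩

theorem FormO.cl {j : ℕ} {e : ℝ × ℝ} {c : Fin 3} {O : Orb} {n : ℤ} (h : FormO Q j e c O n)
    (h1 : InV e (3 * Q.rho j) c (O.xi n) (O.yi n)) : Cl e (3 * Q.rho j) O n :=
  ⟨(Form.dx h).symm.trans_le h1.1, h1.2⟩

theorem Cl.mono {e : ℝ × ℝ} {s t : ℝ} {O : Orb} {n : ℤ} (h : Cl e s O n) (hs : s ≤ t) :
    Cl e t O n := ⟨h.1.trans hs, h.2.trans hs⟩

theorem inj (hN : Net Q C) (O O' : Orb) (hO : Exact Q.m C (fun j => 3 * Q.rho j) O)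
    (hO' : Exact Q.m C (fun j => 3 * Q.rho j) O') (hd : O.d = O'.d) (hb : O.b = O'.b)
    (h : ∀ j n c, Q.Mt j O.d n → Lab C (fun j => 3 * Q.rho j) j c (O.xi n) (O.yi n) →
      Lab C (fun j => 3 * Q.rho j) j c (O'.xi n) (O'.yi n)) : O.xi = O'.xi ∧ O.yi = O'.yi := by
  have h1 : ∀ j n, ∀ i < j, O.d n = Q.m i → IsoO O O' n n := fun j => by
    induction j with
    | zero => simp
    | succ j ih =>
      intro n i hi hn
      rcases (Nat.lt_succ_iff.1 hi).eq_or_lt with rfl | hi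
      swap
      · exact ih n i hi hn
      have hρ := Q.rho_pos i
      rcases (key hN i).dich hN (Exact.pseudo hO _) hn with h1 | ⟨h1, e, he, h2, c, h3⟩
      · rcases (key hN i).dich hN (Exact.pseudo hO' _) (hd ▸ hn) with h2 | h2
        · exact ⟨by rw [h1.2.2.1, h2.2.2.1], by rw [h1.2.2.2, h2.2.2.2]⟩
        · exact (h1.1 (hd ▸ h2.1)).elim
      obtain ⟨e', he', h4⟩ := h i n c h1 ⟨e, he, h3.inV (h2.mono (by linarith))⟩
      have h5 : FormO Q i e' c O' n :=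
        Rel.form ((hO' n).1 i (hd ▸ hn)) (hN.sep i) (r_pos Q i) he' (Or.inl h4)
      have h6 := close_lev (Exact.pseudo hO i) (Exact.pseudo hO' i) hd hb ih n
      obtain rfl := (hN.sep i).eq he he' h2.1 h2.2 (h5.cl h4).1 (h5.cl h4).2 h6.1 h6.2 (by linarith)
      exact Form.iso h3 h5
  have h2 := fun j => close_lev (Exact.pseudo hO j) (Exact.pseudo hO' j) hd hb (h1 j)
  refine ⟨funext fun n => ?_, funext fun n => sub_eq_zero.1 (abs_nonpos_iff.1
    (ge_of_tendsto' Q.rho_lim fun j => (h2 j n).2))⟩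
  have h3 := ge_of_tendsto' Q.rho_lim fun j => (h2 j (n - 1)).1
  rw [O.hx, O'.hx, hd, hb, beta_sub] at h3
  exact sub_eq_zero.1 (abs_nonpos_iff.1 (nonpos_of_mul_nonpos_right h3 (lamd_pos _)))

/-- prescribed branch at the matched passes of the levels in `p` -/
def E1 (Q : Pat) (C : ℕ → Finset (ℝ × ℝ)) (ch : ℤ → Fin 3) (p : ℕ → Prop) (O : Orb) : Prop :=
  ∀ n j, p j → Q.Mt j O.d n →
    ∃ e ∈ C j, InV e (3 * Q.rho j) (ch n) (O.xi n) (O.yi n) ∧ FormO Q j e (ch n) O n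

/-- identity at the other passes -/
def E2 (Q : Pat) (p : ℕ → Prop) (O : Orb) : Prop :=
  ∀ n, (∀ j, p j → ¬ Q.Mt j O.d n) → O.xo n = O.xi n ∧ O.yo n = O.yi n

theorem lev_eq {i j : ℕ} {d : ℤ → ℕ} {n : ℤ} (h : Q.Mt i d n) (h' : d n = Q.m j) : i = j :=
  Q.m_inj ((Q.at_mid _ _ _ h).symm.trans h')

variable {ch : ℤ → Fin 3}

theorem E_pseudo (hN : Net Q C) {p : ℕ → Prop} {O : Orb} (h1 : E1 Q C ch p O) (h2 : E2 Q p O)
    (j : ℕ) (hj : ∀ i < j, p i) : Pseudo Q C j O := by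
  have hM : ∀ j n, (∀ i < j, O.d n ≠ Q.m i) → MovO O n (840 * Q.rho j) := fun j n h => by
    by_cases h3 : ∃ k, p k ∧ Q.Mt k O.d n
    · obtain ⟨k, hk, h3⟩ := h3
      obtain ⟨e, -, h4, h5⟩ := h1 n k hk h3
      refine (Form.mov h5 (r_pos Q k) (h5.cl h4).1 (h5.cl h4).2).mono ?_
      linarith [Q.rho_anti (not_lt.1 fun h6 => h k h6 (Q.at_mid _ _ _ h3) : j ≤ k), Q.rho_pos j]
    · exact Mov.of_eq (h2 n fun k hk h4 => h3 ⟨k, hk, h4⟩) (by linarith [Q.rho_pos j])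
  induction j with
  | zero => exact fun n => ⟨by simp, hM 0 n⟩
  | succ j ih =>
    have h3 := ih fun i hi => hj i (hi.trans j.lt_succ_self)
    refine fun n => ⟨fun i hi hn => ?_, hM _ n⟩
    rcases (Nat.lt_succ_iff.1 hi).eq_or_lt with rfl | hi'
    swap
    · exact (h3 n).1 i hi' hn
    by_cases h4 : Q.Mt i O.d n
    · obtain ⟨e, he, h5, h6⟩ := h1 n i (hj i hi) h4
      exact Form.rel h6 (r_pos Q i) he h5
    · have h5 := h2 n fun k _ h => h4 (lev_eq h hn ▸ h)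
      exact Or.inl ⟨fun e he h => h4 (key hN i O h3 n hn e (hN.sub i e he)
        ⟨by rw [h5.1]; linarith [h.1, Q.rho_pos i], by linarith [h.2, Q.rho_pos i]⟩).1, h5⟩

theorem E_zero (d : ℤ → ℕ) (b : ℤ → Bool) :
    ∃ O : Orb, O.d = d ∧ O.b = b ∧ E1 Q C ch (· < 0) O ∧ E2 Q (· < 0) O := by
  have h0 : lam * (1 / lam) = 1 := mul_one_div_cancel lam_pos.ne'
  have h1 : ∀ k c, |beta k c 0 - 0| ≤ lam * (1 / lam) := fun k c => by
    rw [h0, sub_zero]; exact (beta_bound k c (by simp)).trans (by norm_num)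
  obtain ⟨x, hx, bx⟩ := solve (fun n => beta (d (n + 1)) (b (n + 1))) (· + 1) (fun _ => 0)
    (one_div_pos.2 lam_pos).le (fun n s t => beta_lip _ _ le_rfl) fun n => h1 _ _
  obtain ⟨y, hy, bz⟩ := solve (fun n => beta (d (n - 1)) (b n)) (· - 1) (fun _ => 0)
    (one_div_pos.2 lam_pos).le (fun n s t => beta_lip _ _ le_rfl) fun n => h1 _ _
  simp only [mul_assoc, h0, sub_zero] at bx bz
  exact ⟨⟨d, b, x, y, x, y, fun n => by rw [hx, sub_add_cancel],
    fun n => by rw [hy, add_sub_cancel_right],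
    fun n => by rw [hx]; exact (beta_bound _ _ ((bx _).trans (by norm_num))).trans (by norm_num),
    fun n => by rw [hy]; exact (beta_bound _ _ ((bz _).trans (by norm_num))).trans (by norm_num)⟩,
    rfl, rfl, fun n j hj => (Nat.not_lt_zero j hj).elim, fun n _ => ⟨rfl, rfl⟩⟩

theorem E_data (hN : Net Q C) {J : ℕ} {O : Orb} (h1 : E1 Q C ch (· < J) O) (h2 : E2 Q (· < J) O)
    (n : ℤ) : ∃ (e : ℝ × ℝ) (c : Fin 3) (o : ℝ),
      |e.1 + fl c * (O.xo n - e.1) + o - O.xi n| ≤ 58 * Q.rho J ∧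
      |e.2 + fl c * (O.yi n - e.2) + o - O.yo n| ≤ 58 * Q.rho J ∧
      Mov (e.1 + fl c * (O.xo n - e.1) + o) (O.yi n) (O.xo n) (e.2 + fl c * (O.yi n - e.2) + o)
        (58 * lam) ∧
      (∀ j < J + 1, Q.Mt j O.d n → e ∈ C j ∧ Cl e (2 * Q.rho j) O n ∧ c = ch n ∧
        o = off (ch n) * (3 * Q.rho j)) ∧
      ((∀ j < J + 1, ¬ Q.Mt j O.d n) → fl c = 1 ∧ o = 0) := by
  have hρ := Q.rho_pos J
  by_cases h : ∃ j < J + 1, Q.Mt j O.d n
  · obtain ⟨j, hj, h⟩ := h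
    obtain ⟨e, he, h3⟩ := (key hN j).cen hN (E_pseudo hN h1 h2 j fun i hi => by omega) h
    have h4 := (Form.mov (c := ch n) ⟨rfl, rfl⟩ (r_pos Q j) h3.1 h3.2).mono
      (show _ ≤ 58 * Q.rho j by linarith)
    refine ⟨e, ch n, off (ch n) * (3 * Q.rho j), and_assoc.1 ⟨?_, h4.mono
      (by linarith [Q.rho_le j]), fun i _ hi => ?_, fun h5 => (h5 j hj h).elim⟩⟩
    · rcases (Nat.lt_succ_iff.1 hj).eq_or_lt with rfl | hj
      · obtain ⟨h5, h6⟩ := h2 n fun i hi h5 => hi.ne (lev_eq h5 (Q.at_mid _ _ _ h))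
        exact ⟨by rw [← h5]; exact h4.1, by rw [h6, abs_sub_comm]; exact h4.2⟩
      · obtain ⟨e', he', h5, h6⟩ := h1 n j hj h
        obtain rfl := (hN.sep j).eq he he' h3.1 h3.2 (h6.cl h5).1 (h6.cl h5).2 (u := 0) (by simp)
          (by simp) (by linarith [Q.rho_pos j])
        rw [← h6.1, ← h6.2, sub_self, sub_self, abs_zero, and_self]
        linarith
    · obtain rfl := lev_eq hi (Q.at_mid _ _ _ h)
      exact ⟨he, h3, rfl, rfl⟩
  · obtain ⟨h3, h4⟩ := h2 n fun i hi h5 => h ⟨i, by omega, h5⟩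
    refine ⟨0, 0, 0, ?_, ?_, Mov.of_eq ⟨?_, ?_⟩ (by linarith [lam_pos]),
      fun j hj h5 => (h ⟨j, hj, h5⟩).elim, fun _ => ⟨?_, rfl⟩⟩ <;> simp [fl, h3, h4, hρ.le]

theorem aff_sub (a o s t : ℝ) (c : Fin 3) :
    |a + fl c * (s - a) + o - (a + fl c * (t - a) + o)| = |s - t| := by
  rw [← abs_fl c (s - t)]; congr 1; ring

theorem E_succ (hN : Net Q C) {J : ℕ} {O : Orb} (h1 : E1 Q C ch (· < J) O) (h2 : E2 Q (· < J) O) :
    ∃ O' : Orb, O'.d = O.d ∧ O'.b = O.b ∧ E1 Q C ch (· < J + 1) O' ∧ E2 Q (· < J + 1) O' := by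
  choose e c o a1 a2 a3 a4 a5 using E_data hN h1 h2
  have hρ := Q.rho_pos J
  have hl := Q.rho_le J
  obtain ⟨x, hx, bx⟩ := solve (fun n s => beta (O.d (n + 1)) (O.b (n + 1))
      ((e (n + 1)).1 + fl (c (n + 1)) * (s - (e (n + 1)).1) + o (n + 1))) (· + 1) O.xo
    (D := 58 * Q.rho J) (by linarith) (fun n s t => beta_lip _ _ (aff_sub ..).le)
    fun n => by rw [hx' O n]; exact beta_lip _ _ (a1 _)
  obtain ⟨y, hy, bz⟩ := solve (fun n s => beta (O.d (n - 1)) (O.b n)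
      ((e (n - 1)).2 + fl (c (n - 1)) * (s - (e (n - 1)).2) + o (n - 1))) (· - 1) O.yi
    (D := 58 * Q.rho J) (by linarith) (fun n s t => beta_lip _ _ (aff_sub ..).le)
    fun n => by rw [hy' O n]; exact beta_lip _ _ (a2 _)
  have bx' : ∀ n, |x n - O.xo n| ≤ Q.rho J := fun n => (bx n).trans (by unfold lam; linarith)
  have bz' : ∀ n, |y n - O.yi n| ≤ Q.rho J := fun n => (bz n).trans (by unfold lam; linarith)
  refine ⟨⟨O.d, O.b, fun n => (e n).1 + fl (c n) * (x n - (e n).1) + o n, y, x,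
    fun n => (e n).2 + fl (c n) * (y n - (e n).2) + o n, fun n => by rw [hx, sub_add_cancel],
    fun n => by rw [hy, add_sub_cancel_right], fun n => ?_, fun n => ?_⟩, rfl, rfl,
    fun n j hj h => ?_, fun n h => ?_⟩
  · have b1 := abs_le.1 ((aff_sub (e n).1 (o n) _ _ (c n)).trans_le (bx' n))
    have b2 := abs_le.1 (a3 n).1
    have b3 := abs_le.1 (xo_le O n)
    exact abs_le.2 ⟨by linarith [b1.1, b2.1, b3.1, lam_le], by linarith [b1.2, b2.2, b3.2, lam_le]⟩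
  · have b1 := abs_le.1 ((aff_sub (e n).2 (o n) _ _ (c n)).trans_le (bz' n))
    have b2 := abs_le.1 (a3 n).2
    have b3 := abs_le.1 (yi_le O n)
    exact abs_le.2 ⟨by linarith [b1.1, b2.2, b3.1, lam_le], by linarith [b1.2, b2.1, b3.2, lam_le]⟩
  · obtain ⟨b1, b2, b3, b4⟩ := a4 n j hj h
    have b5 := Q.rho_anti (Nat.lt_succ_iff.1 hj)
    refine ⟨e n, b1, and_iff_right_of_imp (fun h => FormO.inV h ⟨?_, ?_⟩) |>.2
      ⟨by simp only [b3, b4], by simp only [b3, b4]⟩⟩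
    · linarith [abs_sub_le (x n) (O.xo n) (e n).1, bx' n, b2.1]
    · linarith [abs_sub_le (y n) (O.yi n) (e n).2, bz' n, b2.2]
  · simp [a5 n h]

/-- orbits with given symbols, as points of a compact space -/
noncomputable def mkO (d : ℤ → ℕ) (b : ℤ → Bool)
    (v : ℤ → Set.Icc (-1 : ℝ) 1 × Set.Icc (-1 : ℝ) 1) : Orb where
  d := d
  b := b
  xi n := (v n).1
  yi n := beta (d (n - 1)) (b n) (v (n - 1)).2
  xo n := beta (d (n + 1)) (b (n + 1)) (v (n + 1)).1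
  yo n := (v n).2
  hx n := by rw [sub_add_cancel]
  hy n := by rw [add_sub_cancel_right]
  bx n := abs_le.2 (v n).1.2
  bz n := abs_le.2 (v n).2.2

theorem exists_mkO (O : Orb) : ∃ v, mkO O.d O.b v = O := by
  refine ⟨fun n => (⟨O.xi n, abs_le.1 (O.bx n)⟩, ⟨O.yo n, abs_le.1 (O.bz n)⟩), ?_⟩
  have h1 := funext (hx' O)
  have h2 := funext (hy' O)
  obtain ⟨d, b, xi, yi, xo, yo, _, _, _, _⟩ := O
  dsimp only at h1 h2
  simp only [mkO, Orb.mk.injEq, true_and, and_true]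
  exact ⟨h2.symm, h1.symm⟩

theorem ex (hN : Net Q C) (d : ℤ → ℕ) (b : ℤ → Bool) (ch : ℤ → Fin 3) :
    ∃ O : Orb, O.d = d ∧ O.b = b ∧ E1 Q C ch (fun _ => True) O ∧ E2 Q (fun _ => True) O := by
  have h1 : ∀ J, ∃ O : Orb, O.d = d ∧ O.b = b ∧ E1 Q C ch (· < J) O ∧ E2 Q (· < J) O := fun J => by
    induction J with
    | zero => exact E_zero d b
    | succ J ih =>
      obtain ⟨O, rfl, rfl, h1, h2⟩ := ih
      exact E_succ hN h1 h2
  have hc : ∀ J, IsClosed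
      {v | E1 Q C ch (· < J) (mkO d b v) ∧ E2 Q (fun _ => True) (mkO d b v)} := fun J => by
    refine IsClosed.inter (s₁ := {v | E1 Q C ch (· < J) (mkO d b v)})
      (s₂ := {v | E2 Q (fun _ => True) (mkO d b v)}) ?_ ?_
    · simp only [E1, Set.ofPred_forall, mkO]
      refine isClosed_iInter fun n => isClosed_iInter fun j => isClosed_iInter fun _ =>
        isClosed_iInter fun _ => ?_
      simp only [Set.ofPred_exists, ← exists_prop (a := _ ∈ C j)]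
      refine isClosed_biUnion_finset fun e _ => ?_
      simp only [InV, FormO, Form, Set.ofPred_and, beta, ax]
      refine ((isClosed_le ?_ ?_).inter (isClosed_le ?_ ?_)).inter
        ((isClosed_eq ?_ ?_).inter (isClosed_eq ?_ ?_)) <;> fun_prop
    · simp only [E2, Set.ofPred_forall, mkO]
      refine isClosed_iInter fun n => isClosed_iInter fun _ => ?_
      simp only [Set.ofPred_and, beta, ax]
      refine (isClosed_eq ?_ ?_).inter (isClosed_eq ?_ ?_) <;> fun_prop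
  obtain ⟨v, hv⟩ := IsCompact.nonempty_iInter_of_sequence_nonempty_isCompact_isClosed
    (fun J => {v | E1 Q C ch (· < J) (mkO d b v) ∧ E2 Q (fun _ => True) (mkO d b v)})
    (fun J v hv => ⟨fun n j hj => hv.1 n j (hj.trans J.lt_succ_self), hv.2⟩) (fun J => by
      obtain ⟨O, rfl, rfl, h2, h3⟩ := h1 J
      obtain ⟨v, hv⟩ := exists_mkO O
      exact ⟨v, hv.symm ▸ h2, hv.symm ▸ fun n h => h3 n fun j _ => h j trivial⟩)
    (hc 0).isCompact hc
  exact ⟨mkO d b v, rfl, rfl, fun n j _ => (Set.mem_iInter.1 hv (j + 1)).1 n j j.lt_succ_self,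
    (Set.mem_iInter.1 hv 0).2⟩

theorem thm_norm : S_norm := fun Q => by
  obtain ⟨C, hN⟩ := exists_Net Q
  refine ⟨C, fun j => 3 * Q.rho j, ⟨r_pos Q, fun j => by linarith [Q.rho_le j], fun j e he => ?_,
    hN.sep⟩, fun O hO j n h => ?_, fun O hO j n h1 h2 => ?_, inj hN, fun d b ch => ?_⟩
  · obtain ⟨O, n, -, -, rfl⟩ := hN.sub j e he
    exact ⟨xo_le O n, yi_le O n⟩
  · obtain ⟨-, e, he, h1, c, h2⟩ := ((key hN j).dich hN (Exact.pseudo hO _)
      (Q.at_mid _ _ _ h)).resolve_left fun h1 => h1.1 h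
    exact ⟨c, e, he, h2.inV (h1.mono (by linarith [Q.rho_pos j]))⟩
  · exact (((key hN j).dich hN (Exact.pseudo hO _) h1).resolve_right fun h => h2 h.1).2
  · obtain ⟨O, rfl, rfl, h1, h2⟩ := ex hN d b ch
    refine ⟨O, fun n => ⟨fun j hj => (E_pseudo hN h1 h2 (j + 1) (fun _ _ => trivial) n).1 j
      j.lt_succ_self hj, fun h => h2 n fun j _ hj => h j (Q.at_mid _ _ _ hj)⟩, rfl, rfl,
      fun j n h => ?_⟩
    obtain ⟨e, he, h3, -⟩ := h1 n j trivial h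
    exact ⟨e, he, h3⟩

end Pool.Agent.H292Z.Norm
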